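import Pool.Agent.Y110.FJ.Stm5
import Pool.Agent.Y50.FJ.Gp

/-!
# Project FJ: periodic functions extended by the integers
-/

set_option autoImplicit false

namespace Pool.Agent.Y117.FJ

open Pool.Agent.Y462.SS (Closed)
open Pool.Agent.Y70.FJ (U N0)
open Pool.Agent.Y110.FJ

theorem t_pp : S_PP := by
  intro C hC Γ _ m hm hΓ K hK
  have hper0 : ∀ x ∈ K, ∀ k : ℕ, ∀ n : ℤ, x.f (n + m * k) = x.f n := by
    intro x hx k
    induction k with
    | zero =>
      intro n
      simp
    | succ k ih =>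
      intro n
      have h1 : n + (m : ℤ) * ((k + 1 : ℕ) : ℤ) = (n + m * k) + m := by
        push_cast
        ring
      rw [h1, hK x hx, ih]
  have hper : ∀ x ∈ K, ∀ k n : ℤ, x.f (n + m * k) = x.f n := by
    intro x hx k n
    rcases Int.eq_nat_or_neg k with ⟨j, rfl | rfl⟩
    · exact hper0 x hx j n
    · have h1 := hper0 x hx j (n + m * (-(j : ℤ)))
      rw [← h1]
      congr 1
      ring
  haveI : NeZero m := ⟨hm.ne'⟩
  let φ : K →* Multiplicative (ZMod m) :=
    { toFun := fun x => Multiplicative.ofAdd ((x.1.m : ℤ) : ZMod m)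
      map_one' := by simp
      map_mul' := fun x y => by
        simp [ofAdd_add] }
  haveI : Finite (Multiplicative (ZMod m)) := inferInstanceAs (Finite (ZMod m))
  have hfi : φ.ker.FiniteIndex := Subgroup.finiteIndex_ker φ
  refine hC.base.finiteIndex K φ.ker hfi ?_
  have hker : ∀ x : φ.ker, ∃ k : ℤ, x.1.1.m = m * k := by
    intro x
    have h1 : φ x.1 = 1 := x.2
    have h2 : ((x.1.1.m : ℤ) : ZMod m) = 0 := h1
    exact (ZMod.intCast_zmod_eq_zero_iff_dvd _ _).mp h2
  let ψ : φ.ker →* ((∀ _ : Finset.range m, Γ) × Multiplicative ℤ) :=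
    { toFun := fun x => (fun i => x.1.1.f ((i : ℕ) : ℤ), Multiplicative.ofAdd x.1.1.m)
      map_one' := rfl
      map_mul' := fun x y => by
        obtain ⟨k, hk⟩ := hker x
        refine Prod.ext ?_ rfl
        funext i
        show x.1.1.f ((i : ℕ) : ℤ) * y.1.1.f (((i : ℕ) : ℤ) - x.1.1.m) =
          x.1.1.f ((i : ℕ) : ℤ) * y.1.1.f ((i : ℕ) : ℤ)
        have h1 : ((i : ℕ) : ℤ) - x.1.1.m = ((i : ℕ) : ℤ) + m * (-k) := by
          rw [hk]
          ring
        rw [h1, hper y.1.1 y.1.2] }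
  refine hC.base.of_injective _ _ ψ ?_
    (hC.base.prod _ _ (Pool.Agent.Y50.FJ.pi_mem C hC.base (fun _ : ℕ => Γ) (fun _ => hΓ)
      (Finset.range m)) hC.base.int)
  intro x y hxy
  have h1 : ∀ i : Finset.range m, x.1.1.f ((i : ℕ) : ℤ) = y.1.1.f ((i : ℕ) : ℤ) := fun i =>
    congrFun (congrArg Prod.fst hxy) i
  have h2 : x.1.1.m = y.1.1.m := Multiplicative.ofAdd.injective (congrArg Prod.snd hxy)
  have hmZ : (0 : ℤ) < m := by exact_mod_cast hm
  have h3 : ∀ n : ℤ, x.1.1.f n = y.1.1.f n := by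
    intro n
    have h4 : n = n % m + m * (n / m) := (Int.emod_add_mul_ediv n m).symm
    have h5 := Int.emod_nonneg n hmZ.ne'
    have h6 := Int.emod_lt_of_pos n hmZ
    obtain ⟨j, hj⟩ := Int.eq_ofNat_of_zero_le h5
    have hjm : j < m := by omega
    rw [h4, hper x.1.1 x.1.2, hper y.1.1 y.1.2, hj]
    exact h1 ⟨j, Finset.mem_range.mpr hjm⟩
  apply Subtype.ext
  apply Subtype.ext
  exact U.ext (funext h3) h2

end Pool.Agent.Y117.FJ
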